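import Pool.Agent.L0h66.EV.Cyc

/-!
# Clique minors, bonds and exchangeable minors are evasive for every number of vertices
(MP_257582_lc)

Let `G₀` be a finite connected graph without cut vertices, for example a complete graph, and let
`w` be a pattern: `r` branch sets and the numbers `w s(i, j)` of edges required between them. If
`G₀` has the pattern `w`, then every property `P` of the subgraphs of `G₀` (neither monotonicity nor
invariance under isomorphisms is needed) that contains all subgraphs with the pattern `w`, and all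
members of which have cyclomatic number at least `∑ w - r + 1`, is evasive: all edges of `G₀` have
to be queried. The conditions on the pattern (`Pattern`) hold whenever all `w s(i, j)`, `i ≠ j`, are
positive and their sum is at least two.

Special cases (proved at the end of this file) in the setting of the problem, `G₀ = K_n`:
* `clique`: for all `3 ≤ r ≤ n` every property between `K_r minor` and
  `cyclomatic number ≥ (r - 1).choose 2`; in particular (`cliqueMinor`) having a `K_r` minor
  (Hadwiger number at least `r`) is evasive for all `3 ≤ r ≤ n`;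
* `bond`: for `2 ≤ m ≤ ⌊n / 2⌋ ⌈n / 2⌉` every property between `bond with at least m edges` and
  `cyclomatic number ≥ m - 1`;
* `exchangeable`: containing `M` as a minor, for simple graphs `M` without cut vertices such that
  every graph `M + f` contains a copy of `M` that misses some edge of `M` (on arbitrary host graphs
  without cut vertices).

Proof. An explicit adversary. Let `H` be the multigraph of the edges that are not yet excluded,
where some edges that were answered with yes are contracted, and let `Y` be the other edges that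
were answered with yes. Invariants: `H` has no cut vertex and has the pattern, and every edge of `Y`
is critical for this. If the edge `e` is queried, then: if `e` is critical for the pattern, the answer
is yes and `e` is put into `Y`; if it is not and `H - e` has no cut vertex, the answer is no; otherwise
the answer is yes and `e` is contracted. In the last case the pattern is in one block of `H - e` and
survives the contraction, and `H / e` has no cut vertex. When a single edge is left it is critical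
by the exchange property, so `H` is a minimal model of the pattern, with `∑ w - r + |V(H)|`
edges; without the last edge the graph is connected, and its cyclomatic number is too small.
-/

set_option autoImplicit false

namespace Pool.Agent.Results.MP_257582_lc.CliqueMinors

open SimpleGraph

/-- The property `P` of graphs on `n` vertices is evasive, in the form of the frozen statement of
the problem: every adaptive strategy (a rule `σ` for choosing the next pair, depending only on the
answers to the queries made so far) needs all `n.choose 2` queries: there are two graphs that agree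
on the first `n.choose 2 - 1` queried pairs, one with and one without `P`. -/
def Evasive {n : ℕ} (P : SimpleGraph (Fin n) → Prop) : Prop :=
  ∀ σ : Finset (Sym2 (Fin n)) → SimpleGraph (Fin n) → Sym2 (Fin n),
    (∀ (Q : Finset (Sym2 (Fin n))) (G H : SimpleGraph (Fin n)),
        (∀ e ∈ Q, (e ∈ G.edgeSet ↔ e ∈ H.edgeSet)) → σ Q G = σ Q H) →
    ∃ G H : SimpleGraph (Fin n),
      (∀ e ∈ (fun Q : Finset (Sym2 (Fin n)) => insert (σ Q G) Q)^[n.choose 2 - 1]
            (∅ : Finset (Sym2 (Fin n))),
          (e ∈ G.edgeSet ↔ e ∈ H.edgeSet)) ∧ P G ∧ ¬ P H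

/-- The property `P` of the spanning subgraphs of the host graph `G₀` is evasive: every adaptive
strategy needs all `|E(G₀)|` queries. -/
def EvasiveOn {V : Type} [DecidableEq V] (G₀ : SimpleGraph V) (P : SimpleGraph V → Prop) : Prop :=
  ∀ σ : Finset (Sym2 V) → SimpleGraph V → Sym2 V,
    (∀ (Q : Finset (Sym2 V)) (G H : SimpleGraph V),
        (∀ e ∈ Q, (e ∈ G.edgeSet ↔ e ∈ H.edgeSet)) → σ Q G = σ Q H) →
    ∃ G H : SimpleGraph V, G ≤ G₀ ∧ H ≤ G₀ ∧
      (∀ e ∈ (fun Q : Finset (Sym2 V) => insert (σ Q G) Q)^[G₀.edgeSet.ncard - 1]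
            (∅ : Finset (Sym2 V)),
          (e ∈ G.edgeSet ↔ e ∈ H.edgeSet)) ∧ P G ∧ ¬ P H

/-- The graph `G` is connected and stays connected if a vertex is deleted. -/
def NoCutVertex {V : Type} (G : SimpleGraph V) : Prop :=
  G.Connected ∧ ∀ x, (G.induce {x}ᶜ).Preconnected

/-- The cyclomatic number of a finite graph. -/
noncomputable def cyclomatic {V : Type} (G : SimpleGraph V) : ℤ :=
  (G.edgeSet.ncard : ℤ) - Nat.card V + Nat.card G.ConnectedComponent

/-- The graph `G` has a minor isomorphic to `M`: there are disjoint connected vertex sets `B i`, and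
an edge of `G` between `B i` and `B j` whenever `i` and `j` are adjacent in `M`. -/
def HasMinor {V : Type} {r : ℕ} (M : SimpleGraph (Fin r)) (G : SimpleGraph V) : Prop :=
  ∃ B : Fin r → Set V, (∀ i, (G.induce (B i)).Connected) ∧
    (∀ i j, i ≠ j → Disjoint (B i) (B j)) ∧
    ∀ i j, M.Adj i j → ∃ x ∈ B i, ∃ y ∈ B j, G.Adj x y

/-- There are `r` disjoint connected vertex sets `B i` such that `G` has at least `w s(i, j)` edges
between `B i` and `B j` for all `i ≠ j`. -/
def HasPattern {V : Type} {r : ℕ} (w : Sym2 (Fin r) → ℕ) (G : SimpleGraph V) : Prop :=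
  ∃ B : Fin r → Set V, (∀ i, (G.induce (B i)).Connected) ∧
    (∀ i j, i ≠ j → Disjoint (B i) (B j)) ∧
    ∀ i j, i ≠ j → w s(i, j) ≤ {e | e ∈ G.edgeSet ∧ ∃ x ∈ B i, ∃ y ∈ B j, e = s(x, y)}.ncard

/-- There are two disjoint connected vertex sets with at least `m` edges of `G` between them
(that is, `G` has a bond with at least `m` edges). -/
def HasBond {V : Type} (m : ℕ) (G : SimpleGraph V) : Prop :=
  ∃ A B : Set V, (G.induce A).Connected ∧ (G.induce B).Connected ∧ Disjoint A B ∧
    m ≤ {e | e ∈ G.edgeSet ∧ ∃ x ∈ A, ∃ y ∈ B, e = s(x, y)}.ncard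

/-- The graph of the pairs of branch sets between which the pattern `w` requires an edge. -/
def support {r : ℕ} (w : Sym2 (Fin r) → ℕ) : SimpleGraph (Fin r) where
  Adj i j := i ≠ j ∧ 0 < w s(i, j)
  symm := ⟨fun i j h => ⟨h.1.symm, by rw [Sym2.eq_swap]; exact h.2⟩⟩
  loopless := ⟨fun _ h => h.1 rfl⟩

/-- The conditions on the pattern: the support stays connected if a branch set is deleted, at least
two edges are required, and (exchange property, void if all weights are positive) if one edge of a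
type `p₁` of weight zero is added and one edge of a certain type `p₀` is deleted, then there is a
copy of the pattern, given by a permutation `σ` of the branch sets. -/
structure Pattern {r : ℕ} (w : Sym2 (Fin r) → ℕ) : Prop where
  conn : ∀ i, ((support w).induce {i}ᶜ).Preconnected
  two : 2 ≤ ∑ p with ¬ Sym2.IsDiag p, w p
  exch : ∀ p₁ : Sym2 (Fin r), ¬ p₁.IsDiag → w p₁ = 0 →
    ∃ σ : Equiv.Perm (Fin r), ∃ p₀ : Sym2 (Fin r), ¬ p₀.IsDiag ∧ 0 < w p₀ ∧
      ∀ p, ¬ p.IsDiag →
        w p + (if p.map σ = p₀ then 1 else 0) ≤ w (p.map σ) + (if p.map σ = p₁ then 1 else 0)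

/-- If `i` and `j` are not adjacent in `M`, then `M + i j` contains a copy of `M` (given by a
permutation `σ` of the vertices) that misses some edge `c d` of `M`. -/
def Exchangeable {r : ℕ} (M : SimpleGraph (Fin r)) : Prop :=
  ∀ i j, i ≠ j → ¬ M.Adj i j → ∃ σ : Equiv.Perm (Fin r), ∃ c d, M.Adj c d ∧
    ∀ a b, M.Adj a b → s(σ a, σ b) ≠ s(c, d) ∧ (M.Adj (σ a) (σ b) ∨ s(σ a, σ b) = s(i, j))

/-! ### Auxiliary facts -/

open Pool.Agent.L0h66 in
theorem top_noCut (n : ℕ) (hn : 0 < n) : NoCutVertex (⊤ : SimpleGraph (Fin n)) := by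
  have : Nonempty (Fin n) := ⟨⟨0, hn⟩⟩
  refine ⟨connected_top, fun x a b => ?_⟩
  by_cases h : a = b
  · rw [h]
  · apply Adj.reachable
    rw [comap_adj, top_adj]
    exact fun h1 => h (Subtype.ext h1)

theorem ncard_top (n : ℕ) : (⊤ : SimpleGraph (Fin n)).edgeSet.ncard = n.choose 2 := by
  classical
  rw [← coe_edgeFinset, Set.ncard_coe_finset, card_edgeFinset_top_eq_card_choose_two,
    Fintype.card_fin]

theorem evasive_of_top {n : ℕ} {P : SimpleGraph (Fin n) → Prop}
    (h : Pool.Agent.L0h66.EV.EvasiveOn (⊤ : SimpleGraph (Fin n)) P) : Evasive P := by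
  intro σ hσ
  obtain ⟨G, H, -, -, h1, h2, h3⟩ := h σ hσ
  rw [ncard_top] at h1
  exact ⟨G, H, h1, h2, h3⟩

theorem cyc_top {r : ℕ} (M : SimpleGraph (Fin r)) {V : Type} [Finite V] (hr : 0 < r)
    {G : SimpleGraph V} (h : HasMinor M G) :
    (M.edgeSet.ncard : ℤ) - r + 1 ≤ cyclomatic G := by
  have h1 := Pool.Agent.L0h66.EV.cyc_of_minor hr
    ((Pool.Agent.L0h66.EV.graphMinor_iff M G).2 h)
  rw [Pool.Agent.L0h66.EV.sum_pw] at h1
  unfold cyclomatic
  omega

theorem pred_choose (r : ℕ) (hr : 1 ≤ r) : ((r - 1).choose 2 : ℤ) = (r.choose 2 : ℤ) - r + 1 := by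
  obtain ⟨k, rfl⟩ := Nat.exists_eq_add_of_le' hr
  rw [Nat.add_sub_cancel, Nat.choose_succ_succ' k 1, Nat.choose_one_right]
  push_cast
  ring

theorem exch_top (r : ℕ) : Pool.Agent.L0h66.EV.Exchangeable (⊤ : SimpleGraph (Fin r)) := by
  intro i j hij h
  exact absurd hij h

theorem induce_connected_top {n : ℕ} {A : Set (Fin n)} (hA : A.Nonempty) :
    ((⊤ : SimpleGraph (Fin n)).induce A).Connected := by
  obtain ⟨x, hx⟩ := hA
  rw [connected_iff]
  refine ⟨fun a b => ?_, ⟨⟨x, hx⟩⟩⟩
  by_cases h : a = b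
  · rw [h]
  · apply Adj.reachable
    rw [comap_adj, top_adj]
    exact fun h1 => h (Subtype.ext h1)

theorem top_bond (n m : ℕ) (hm : 2 ≤ m) (h : m ≤ (n / 2) * ((n + 1) / 2)) :
    HasBond m (⊤ : SimpleGraph (Fin n)) := by
  have hn : 2 ≤ n := by
    by_contra h1
    have h2 : n / 2 = 0 := by omega
    rw [h2, Nat.zero_mul] at h
    omega
  refine ⟨{i | (i : ℕ) < n / 2}, {i | n / 2 ≤ (i : ℕ)}, induce_connected_top ⟨⟨0, by omega⟩, ?_⟩,
    induce_connected_top ⟨⟨n / 2, by omega⟩, ?_⟩, ?_, ?_⟩
  · change 0 < n / 2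
    omega
  · exact le_refl (n / 2)
  · rw [Set.disjoint_left]
    intro i hi hi2
    have h1 : (i : ℕ) < n / 2 := hi
    have h2 : n / 2 ≤ (i : ℕ) := hi2
    omega
  · refine h.trans ?_
    classical
    set f : Fin (n / 2) × Fin ((n + 1) / 2) → Sym2 (Fin n) := fun p =>
      s(⟨p.1, by omega⟩, ⟨n / 2 + p.2, by omega⟩) with hf
    have hinj : Function.Injective f := by
      rintro ⟨a, b⟩ ⟨a', b'⟩ hab
      rw [hf] at hab
      simp only [Sym2.eq_iff, Fin.mk.injEq] at hab
      rw [Prod.mk.injEq]
      rcases hab with ⟨h1, h2⟩ | ⟨h1, h2⟩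
      · exact ⟨Fin.ext h1, Fin.ext (by omega)⟩
      · have := a.2
        omega
    have hc : (Set.range f).ncard = n / 2 * ((n + 1) / 2) := by
      rw [← Set.image_univ, Set.ncard_image_of_injective _ hinj, Set.ncard_univ,
        Nat.card_eq_fintype_card, Fintype.card_prod, Fintype.card_fin, Fintype.card_fin]
    rw [← hc]
    refine Set.ncard_le_ncard ?_ (Set.toFinite _)
    rintro e ⟨⟨a, b⟩, rfl⟩
    refine ⟨?_, ⟨a, by omega⟩, a.2, ⟨n / 2 + b, by omega⟩, ?_, rfl⟩
    · rw [hf, mem_edgeSet, top_adj]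
      intro h1
      rw [Fin.mk.injEq] at h1
      have := a.2
      omega
    · exact Nat.le_add_right _ _

theorem bond_iff {V : Type} [Finite V] (m : ℕ) (G : SimpleGraph V) :
    Pool.Agent.L0h66.EV.HasMinor (fun _ : Sym2 (Fin 2) => m) G ↔ HasBond m G := by
  constructor
  · rintro ⟨B, h1, h2, h3⟩
    exact ⟨B 0, B 1, h1 0, h1 1, h2 0 1 (by decide), h3 0 1 (by decide)⟩
  · rintro ⟨A, B, h1, h2, h3, h4⟩
    refine ⟨fun i => if i = 0 then A else B, ?_, ?_, ?_⟩
    · intro i
      fin_cases i
      · exact h1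
      · exact h2
    · intro i j hij
      fin_cases i <;> fin_cases j
      · exact absurd rfl hij
      · exact h3
      · exact h3.symm
      · exact absurd rfl hij
    · intro i j hij
      fin_cases i <;> fin_cases j
      · exact absurd rfl hij
      · exact h4
      · refine h4.trans (le_of_eq ?_)
        congr 1
        ext e
        constructor
        · rintro ⟨k1, x, hx, y, hy, rfl⟩
          exact ⟨k1, y, hy, x, hx, Sym2.eq_swap⟩
        · rintro ⟨k1, x, hx, y, hy, rfl⟩
          exact ⟨k1, y, hy, x, hx, Sym2.eq_swap⟩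
      · exact absurd rfl hij

theorem sum_bond (m : ℕ) : ∑ p : Sym2 (Fin 2) with ¬ p.IsDiag, (fun _ : Sym2 (Fin 2) => m) p = m := by
  rw [Finset.sum_const]
  have : (Finset.univ.filter (fun p : Sym2 (Fin 2) => ¬ p.IsDiag)).card = 1 := by decide
  rw [this, one_smul]

theorem pattern_pat {r : ℕ} {w : Sym2 (Fin r) → ℕ} (hw : Pattern w) :
    Pool.Agent.L0h66.EV.Pat w := by
  refine ⟨?_, ?_, hw.two⟩
  · rintro i K ⟨k, hk, hki⟩ ⟨l, hl, hli⟩
    obtain ⟨a, b, k1, k2, k3, k4, k5⟩ := Pool.Agent.L0h66.EV.cut_iff.2 (hw.conn i) K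
      ⟨k, hki, hk⟩ ⟨l, hli, hl⟩
    exact ⟨a, b, k3, k1, k4, k2, k5.2⟩
  · intro p₁ hp₁
    by_cases h : w p₁ = 0
    · exact hw.exch p₁ hp₁ h
    · refine ⟨Equiv.refl _, p₁, hp₁, Nat.pos_of_ne_zero h, fun p _ => ?_⟩
      have h1 : p.map (Equiv.refl (Fin r)) = p := by
        rw [Equiv.coe_refl, Sym2.map_id]
        rfl
      rw [h1]

theorem pattern_pos {r : ℕ} {w : Sym2 (Fin r) → ℕ} (hw : ∀ p, ¬ Sym2.IsDiag p → 0 < w p)
    (ht : 2 ≤ ∑ p with ¬ Sym2.IsDiag p, w p) : Pattern w := by
  refine ⟨fun i => ?_, ht, fun p hp h => absurd h (hw p hp).ne'⟩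
  rintro ⟨a, ha⟩ ⟨b, hb⟩
  by_cases hab : a = b
  · subst hab
    exact Reachable.refl _
  · exact Adj.reachable ⟨hab, hw _ (by simpa using hab)⟩

theorem pattern_graph {r : ℕ} {M : SimpleGraph (Fin r)} (hr : 3 ≤ r) (hM : NoCutVertex M)
    (hE : Exchangeable M) : Pattern (Pool.Agent.L0h66.EV.pw M) := by
  have h := Pool.Agent.L0h66.EV.pat_graph hr hM.1 hM.2 hE
  refine ⟨fun i => ?_, h.tot, fun p hp _ => h.exch p hp⟩
  refine (hM.2 i).mono ?_
  intro a b hab
  refine ⟨fun h1 => hab.ne (Subtype.ext h1), ?_⟩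
  change 0 < Pool.Agent.L0h66.EV.pw M s(a.1, b.1)
  unfold Pool.Agent.L0h66.EV.pw
  rw [if_pos (show s(a.1, b.1) ∈ M.edgeSet from hab)]
  exact Nat.one_pos

/-- **The sandwich theorem.** Let `G₀` be a finite connected graph without cut vertices that has the
pattern `w`. Every property of the subgraphs of `G₀` between having the pattern `w` and having
cyclomatic number at least `∑ w - r + 1` is evasive. -/
theorem result (V : Type) [Finite V] [DecidableEq V] (G₀ : SimpleGraph V) (hG₀ : NoCutVertex G₀)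
    (r : ℕ) (w : Sym2 (Fin r) → ℕ) (hw : Pattern w) (hm : HasPattern w G₀)
    (P : SimpleGraph V → Prop) (hP1 : ∀ H, H ≤ G₀ → HasPattern w H → P H)
    (hP2 : ∀ H, H ≤ G₀ → P H →
      ((∑ p with ¬ Sym2.IsDiag p, w p : ℕ) : ℤ) - r + 1 ≤ cyclomatic H) :
    EvasiveOn G₀ P := by
  refine Pool.Agent.L0h66.EV.host (pattern_pat hw) G₀ hG₀.1 hG₀.2 hm P hP1 (fun H hH h => ?_)
  have h1 := hP2 H hH h
  unfold cyclomatic at h1
  omega

/-! ### Special cases -/

/-- A graph with the pattern `w` has cyclomatic number at least `∑ w - r + 1`. -/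
theorem cyclomatic_of_hasPattern {V : Type} [Finite V] {r : ℕ} {w : Sym2 (Fin r) → ℕ}
    (hr : 0 < r) {H : SimpleGraph V} (h : HasPattern w H) :
    ((∑ p with ¬ Sym2.IsDiag p, w p : ℕ) : ℤ) - r + 1 ≤ cyclomatic H := by
  have h1 := Pool.Agent.L0h66.EV.cyc_of_minor hr h
  unfold cyclomatic
  omega

theorem exchangeable {r : ℕ} {M : SimpleGraph (Fin r)} (hr : 3 ≤ r) (hM : NoCutVertex M)
    (hE : Exchangeable M) (V : Type) [Finite V] [DecidableEq V] (G₀ : SimpleGraph V)
    (hG₀ : NoCutVertex G₀) (hm : HasMinor M G₀) (P : SimpleGraph V → Prop)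
    (hP1 : ∀ H, H ≤ G₀ → HasMinor M H → P H)
    (hP2 : ∀ H, H ≤ G₀ → P H → (M.edgeSet.ncard : ℤ) - r + 1 ≤ cyclomatic H) :
    EvasiveOn G₀ P := by
  refine result V G₀ hG₀ r _ (pattern_graph hr hM hE)
    ((Pool.Agent.L0h66.EV.graphMinor_iff M G₀).2 hm) P
    (fun H hH h => hP1 H hH ((Pool.Agent.L0h66.EV.graphMinor_iff M H).1 h)) (fun H hH h => ?_)
  rw [Pool.Agent.L0h66.EV.sum_pw]
  exact hP2 H hH h

/-- Clique minors in the setting of the problem. -/
theorem clique {n r : ℕ} (hr : 3 ≤ r) (hrn : r ≤ n) (P : SimpleGraph (Fin n) → Prop)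
    (hP1 : ∀ G, HasMinor (⊤ : SimpleGraph (Fin r)) G → P G)
    (hP2 : ∀ G, P G → ((r - 1).choose 2 : ℤ) ≤ cyclomatic G) : Evasive P := by
  have htop : HasMinor (⊤ : SimpleGraph (Fin r)) (⊤ : SimpleGraph (Fin n)) := by
    refine ⟨fun i => {Fin.castLE hrn i}, fun i => induce_connected_top ⟨_, rfl⟩, ?_, ?_⟩
    · intro i j hij
      rw [Set.disjoint_singleton]
      exact fun h => hij (Fin.castLE_injective hrn h)
    · intro i j hij
      exact ⟨_, rfl, _, rfl, fun h => hij (Fin.castLE_injective hrn h)⟩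
  refine evasive_of_top (exchangeable hr (top_noCut r (by omega)) (exch_top r) (Fin n) ⊤
    (top_noCut n (by omega)) htop P (fun G _ h => hP1 G h) (fun G _ h => ?_))
  have h1 := hP2 G h
  rw [pred_choose r (by omega)] at h1
  rw [ncard_top]
  exact h1

/-- Having a `K_r` minor is evasive for all `3 ≤ r ≤ n`. -/
theorem cliqueMinor {n r : ℕ} (hr : 3 ≤ r) (hrn : r ≤ n) :
    Evasive (fun G : SimpleGraph (Fin n) => HasMinor (⊤ : SimpleGraph (Fin r)) G) := by
  refine clique hr hrn _ (fun G h => h) (fun G h => ?_)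
  have h1 := cyc_top ⊤ (by omega) h
  rw [ncard_top] at h1
  rw [pred_choose r (by omega)]
  exact h1

/-- Bonds in the setting of the problem. -/
theorem bond {n m : ℕ} (hm : 2 ≤ m) (hmn : m ≤ (n / 2) * ((n + 1) / 2))
    (P : SimpleGraph (Fin n) → Prop) (hP1 : ∀ G, HasBond m G → P G)
    (hP2 : ∀ G, P G → (m : ℤ) - 1 ≤ cyclomatic G) : Evasive P := by
  have hn : 0 < n := by
    by_contra h1
    have h2 : n / 2 = 0 := by omega
    rw [h2, Nat.zero_mul] at hmn
    omega
  refine evasive_of_top (result (Fin n) ⊤ (top_noCut n hn) 2 (fun _ => m)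
    (pattern_pos (fun _ _ => by omega) (by rw [sum_bond]; exact hm))
    ((bond_iff m _).2 (top_bond n m hm hmn)) P
    (fun G _ h => hP1 G ((bond_iff m G).1 h)) (fun G _ h => ?_))
  have h1 := hP2 G h
  rw [sum_bond]
  push_cast
  omega

end Pool.Agent.Results.MP_257582_lc.CliqueMinors
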