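import Mathlib
import Pool.Agent.Results.MP_257582_lc.RegularDegrees
import Pool.Agent.Results.MP_257582_lc.ConeDegrees
import Pool.Agent.H238R2.HY.Struct
import Pool.Agent.X76.PM2

set_option autoImplicit false

/-!
# Edge colouring properties are evasive for every number of vertices (MP_257582_lc)

Let `n ≥ 2` be arbitrary, and let `b 0, …, b (r - 1)` be arbitrary natural numbers. `Colourable G r b`
means that `G` is the union of `r` graphs of maximum degrees at most `b 0, …, b (r - 1)`, i.e. that the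
edges can be coloured with `r` colours such that the colour `i` is used at most `b i` times at every
vertex. If all `b i` are one, then these are the proper edge colourings. We show that the property
of not being the union of `r` such graphs is evasive for graphs on `n` vertices whenever there is a
graph on `n` vertices with this property, with no arithmetic condition on `n`. For example
`the chromatic index is greater than r` is an evasive property for every `r` and every `n`.

More generally every non-empty monotone isomorphism-invariant property of graphs on `n` vertices is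
evasive that contains all graphs with a vertex of degree greater than `∑ b i` and all graphs with a set
`U` of vertices that spans more than `∑ ⌊b i |U| / 2⌋` edges, and all members of which are not
colourable in this way; for example the property that the fractional chromatic index is greater
than the natural number `r`.

Proof. Let some `b i` be odd. For `n` odd all regular graphs of degree `d` on `n` vertices are treated
in the same way, by Vizing's theorem and since they are overfull for `d = ∑ b i`, and `RegularDegrees`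
of the starting files applies. For `n` even, graphs with a vertex of degree `n - 1` have the property;
for a regular graph on `n - 1` vertices together with an isolated vertex the property depends only
on the degree, since `n - 1` is odd; and the dual form of `ConeDegrees` of the starting files applies.
If all `b i` are even, then Petersen's theorem on 2-factors and `RegularDegrees` suffice.
-/

namespace Pool.Agent.Results.MP_257582_lc.EdgeColourings

open Finset

/-- Every decision strategy `s` (the next pair to be queried depends only on the answers to the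
queries made so far) needs all `n.choose 2` queries: there are two graphs that agree on the first
`n.choose 2 - 1` queried pairs, one with and one without `P`. -/
def Evasive {n : ℕ} (P : SimpleGraph (Fin n) → Prop) : Prop :=
  ∀ s : Finset (Sym2 (Fin n)) → SimpleGraph (Fin n) → Sym2 (Fin n),
    (∀ (Q : Finset (Sym2 (Fin n))) (G H : SimpleGraph (Fin n)),
        (∀ e ∈ Q, (e ∈ G.edgeSet ↔ e ∈ H.edgeSet)) → s Q G = s Q H) →
    ∃ G H : SimpleGraph (Fin n),
      (∀ e ∈ (fun Q : Finset (Sym2 (Fin n)) => insert (s Q G) Q)^[n.choose 2 - 1]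
            (∅ : Finset (Sym2 (Fin n))),
          (e ∈ G.edgeSet ↔ e ∈ H.edgeSet)) ∧ P G ∧ ¬ P H

/-- The edges of `G` can be coloured with the colours `0, …, r - 1` such that the colour `i` occurs on
at most `b i` edges at every vertex; so `G` is the union of `r` graphs of maximum degrees at most
`b 0, …, b (r - 1)`. If all `b i` are one, these are the proper edge colourings. -/
def Colourable {n : ℕ} (G : SimpleGraph (Fin n)) (r : ℕ) (b : ℕ → ℕ) : Prop :=
  ∃ c : Fin n → Fin n → ℕ, (∀ u v, c u v = c v u) ∧ (∀ u v, G.Adj u v → c u v < r) ∧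
    ∀ u, ∀ i < r, {v | G.Adj u v ∧ c u v = i}.ncard ≤ b i

/-- Some vertex has more than `b 0 + ⋯ + b (r - 1)` neighbours. -/
def HighDegree {n : ℕ} (G : SimpleGraph (Fin n)) (r : ℕ) (b : ℕ → ℕ) : Prop :=
  ∃ v, ∑ i ∈ range r, b i < (G.neighborSet v).ncard

/-- Some set `U` of vertices spans more than `∑ ⌊b i |U| / 2⌋` edges (the sum on the right counts
them twice). -/
def Overfull {n : ℕ} (G : SimpleGraph (Fin n)) (r : ℕ) (b : ℕ → ℕ) : Prop :=
  ∃ U : Finset (Fin n),
    2 * ∑ i ∈ range r, b i * U.card / 2 < ∑ u ∈ U, {v | v ∈ U ∧ G.Adj u v}.ncard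

/-- consecutive intervals of lengths `h 0, …, h (r - 1)` -/
theorem group (h : ℕ → ℕ) : ∀ r : ℕ, ∃ g : ℕ → ℕ, (∀ x < ∑ i ∈ range r, h i, g x < r) ∧
    ∀ i < r, ((range (∑ i ∈ range r, h i)).filter fun x => g x = i).card ≤ h i := by
  intro r
  induction r with
  | zero => exact ⟨id, by simp, by simp⟩
  | succ r ih =>
    obtain ⟨g, h1, h2⟩ := ih
    rw [sum_range_succ]
    set S := ∑ i ∈ range r, h i with hS
    refine ⟨fun x => if x < S then g x else r, fun x hx => ?_, fun i hi => ?_⟩
    · dsimp only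
      split_ifs with hx'
      · have := h1 x hx'
        omega
      · omega
    · rcases Nat.lt_succ_iff_lt_or_eq.1 hi with hi' | hi'
      · refine le_trans (card_le_card fun x hx => ?_) (h2 i hi')
        rw [mem_filter, mem_range] at hx ⊢
        obtain ⟨hx1, hx2⟩ := hx
        dsimp only at hx2
        split_ifs at hx2 with h3
        · exact ⟨h3, hx2⟩
        · omega
      · subst hi'
        have : ((range (S + h i)).filter fun x => (if x < S then g x else i) = i) ⊆
            Ico S (S + h i) := by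
          intro x hx
          rw [mem_filter, mem_range] at hx
          rw [mem_Ico]
          obtain ⟨hx1, hx2⟩ := hx
          split_ifs at hx2 with h3
          · have := h1 x h3
            omega
          · omega
        refine (card_le_card this).trans ?_
        rw [Nat.card_Ico]
        omega

theorem colourable_of_classes {n r e : ℕ} {b h : ℕ → ℕ} {G : SimpleGraph (Fin n)}
    (hb : ∀ i < r, e * h i ≤ b i) (c : Fin n → Fin n → ℕ) (h1 : ∀ u v, c u v = c v u)
    (h2 : ∀ u v, G.Adj u v → c u v < ∑ i ∈ range r, h i)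
    (h3 : ∀ u x, {v | G.Adj u v ∧ c u v = x}.ncard ≤ e) : Colourable G r b := by
  classical
  obtain ⟨g, g1, g2⟩ := group h r
  refine ⟨fun u v => g (c u v), fun u v => congrArg g (h1 u v), fun u v huv => g1 _ (h2 u v huv),
    fun u i hi => ?_⟩
  have e1 : {v | G.Adj u v ∧ g (c u v) = i} =
      ↑(univ.filter fun v => G.Adj u v ∧ g (c u v) = i) := by
    ext v
    simp
  rw [e1, Set.ncard_coe_finset, card_eq_sum_card_fiberwise (f := fun v => c u v)
    (t := (range (∑ i ∈ range r, h i)).filter fun x => g x = i)]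
  · refine le_trans (sum_le_card_nsmul _ _ e fun x _ => ?_) ?_
    · refine le_trans (le_of_eq ?_) (le_trans (Set.ncard_le_ncard
        (s := {v | G.Adj u v ∧ g (c u v) = i ∧ c u v = x}) (t := {v | G.Adj u v ∧ c u v = x})
        (fun v hv => ⟨hv.1, hv.2.2⟩) (Set.toFinite _)) (h3 u x))
      rw [← Set.ncard_coe_finset]
      congr 1
      ext v
      simp [and_assoc]
    · rw [smul_eq_mul, mul_comm]
      exact (Nat.mul_le_mul_left e (g2 i hi)).trans (hb i hi)
  · intro v hv
    simp only [coe_filter, mem_univ, true_and, Set.mem_ofPred_eq] at hv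
    simp only [coe_filter, mem_range, Set.mem_ofPred_eq]
    exact ⟨h2 u v hv.1, hv.2⟩

theorem one_class {n : ℕ} {G : SimpleGraph (Fin n)} (c : Fin n → Fin n → ℕ)
    (h3 : ∀ u v v', G.Adj u v → G.Adj u v' → v ≠ v' → c u v ≠ c u v') (u : Fin n) (x : ℕ) :
    {v | G.Adj u v ∧ c u v = x}.ncard ≤ 1 := by
  rw [Set.ncard_le_one (Set.toFinite _)]
  intro v hv w hw
  by_contra hne
  exact h3 u v w hv.1 hw.1 hne (hv.2.trans hw.2.symm)

theorem colourable_of_proper {n r : ℕ} {b : ℕ → ℕ} {G : SimpleGraph (Fin n)}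
    (c : Fin n → Fin n → ℕ) (h1 : ∀ u v, c u v = c v u)
    (h2 : ∀ u v, G.Adj u v → c u v < ∑ i ∈ range r, b i)
    (h3 : ∀ u v v', G.Adj u v → G.Adj u v' → v ≠ v' → c u v ≠ c u v') : Colourable G r b :=
  colourable_of_classes (e := 1) (h := b) (fun i _ => by rw [one_mul]) c h1 h2 (one_class c h3)

theorem colourable_of_deg {n r d : ℕ} {b : ℕ → ℕ} {G : SimpleGraph (Fin n)}
    (hd : ∀ v, (G.neighborSet v).ncard ≤ d) (hdr : d < ∑ i ∈ range r, b i) :
    Colourable G r b := by
  classical
  obtain ⟨c, h1, h2, h3⟩ := Pool.Agent.H238R2.HY.vizing G d (fun v => by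
    have := hd v
    rwa [← Nat.card_coe_set_eq, Nat.card_eq_fintype_card, SimpleGraph.card_neighborSet_eq_degree]
      at this)
  exact colourable_of_proper c h1 (fun u v h => lt_of_le_of_lt (h2 u v h) hdr) h3

/-- Petersen's theorem: regular graphs of even degree -/
theorem colourable_petersen {n r : ℕ} {b : ℕ → ℕ} {G : SimpleGraph (Fin n)}
    (hb : ∀ i < r, Even (b i)) (hd : ∀ v, (G.neighborSet v).ncard = ∑ i ∈ range r, b i) :
    Colourable G r b := by
  classical
  have hN : ∑ i ∈ range r, b i = 2 * ∑ i ∈ range r, b i / 2 := by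
    rw [mul_sum]
    refine sum_congr rfl fun i hi => ?_
    obtain ⟨x, hx⟩ := hb i (mem_range.1 hi)
    omega
  set N := ∑ i ∈ range r, b i / 2 with hNdef
  obtain ⟨W, w1, w2, w3, w4⟩ := Pool.Agent.X76.PM.two_factors N
    (fun x y : Fin n => if G.Adj x y then 1 else 0)
    (fun x y => by simp only [G.adj_comm x y]) (fun x => by simp) (fun x => by
      rw [← hN, ← hd x, ← card_filter, ← Set.ncard_coe_finset]
      congr 1
      ext y
      simp)
  have key : ∀ x y, G.Adj x y →
      sInf {j : ℕ | ∃ h : j < N, W ⟨j, h⟩ x y ≠ 0} ∈ {j : ℕ | ∃ h : j < N, W ⟨j, h⟩ x y ≠ 0} := by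
    intro x y hxy
    apply Nat.sInf_mem
    by_contra hcon
    rw [Set.not_nonempty_iff_eq_empty] at hcon
    have h0 : ∑ j, W j x y = 0 := by
      apply sum_eq_zero
      intro j _
      by_contra hj
      have : (j : ℕ) ∈ {j : ℕ | ∃ h : j < N, W ⟨j, h⟩ x y ≠ 0} := ⟨j.2, hj⟩
      rw [hcon] at this
      exact this
    rw [w4 x y, if_pos hxy] at h0
    exact one_ne_zero h0
  refine colourable_of_classes (e := 2) (h := fun i => b i / 2) (fun i _ => by omega)
    (fun x y => sInf {j : ℕ | ∃ h : j < N, W ⟨j, h⟩ x y ≠ 0}) ?_ ?_ ?_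
  · intro x y
    simp only [w1 _ x y]
  · intro x y hxy
    obtain ⟨h, -⟩ := key x y hxy
    exact h
  · intro x i
    by_cases hi : i < N
    · rw [← w2 ⟨i, hi⟩ x]
      have e1 : {y | G.Adj x y ∧ sInf {j : ℕ | ∃ h : j < N, W ⟨j, h⟩ x y ≠ 0} = i} ⊆
          ↑(univ.filter fun y => W ⟨i, hi⟩ x y ≠ 0) := by
        rintro y ⟨h1, h2⟩
        obtain ⟨h3, h4⟩ := key x y h1
        simp only [coe_filter, mem_univ, true_and, Set.mem_ofPred_eq]
        have e2 : (⟨sInf {j : ℕ | ∃ h : j < N, W ⟨j, h⟩ x y ≠ 0}, h3⟩ : Fin N) = ⟨i, hi⟩ :=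
          Fin.ext h2
        rw [e2] at h4
        exact h4
      refine (Set.ncard_le_ncard e1 (Set.toFinite _)).trans ?_
      rw [Set.ncard_coe_finset, card_eq_sum_ones, sum_filter]
      refine sum_le_sum fun y _ => ?_
      split_ifs with h
      · omega
      · exact Nat.zero_le _
    · have : {y | G.Adj x y ∧ sInf {j : ℕ | ∃ h : j < N, W ⟨j, h⟩ x y ≠ 0} = i} = ∅ := by
        ext y
        simp only [Set.mem_ofPred_eq, Set.mem_empty_iff_false, iff_false]
        rintro ⟨h1, h2⟩
        obtain ⟨h3, -⟩ := key x y h1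
        omega
      rw [this, Set.ncard_empty]
      exact Nat.zero_le _

/-- The colours of the edges of a complete graph with an even number of vertices. -/
def col (L u v : ℕ) : ℕ :=
  if u = L then (2 * v) % L else if v = L then (2 * u) % L else (u + v) % L

theorem col_comm (L u v : ℕ) : col L u v = col L v u := by
  unfold col
  split_ifs with h1 h2 h2
  · rw [h1, h2]
  · rfl
  · rfl
  · rw [Nat.add_comm]

theorem two_inj {L v w : ℕ} (hL : Odd L) (hv : v < L) (hw : w < L)
    (h : (2 * v) % L = (2 * w) % L) : v = w := by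
  have h1 : 2 * v ≡ 2 * w [MOD L] := h
  have h2 : v ≡ w [MOD L] := Nat.ModEq.cancel_left_of_coprime (by
    rw [Nat.gcd_comm]
    exact (Nat.coprime_two_left.2 hL)) h1
  exact Nat.ModEq.eq_of_lt_of_lt h2 hv hw

theorem add_inj' {L u v w : ℕ} (hv : v < L) (hw : w < L)
    (h : (u + v) % L = (u + w) % L) : v = w := by
  have h1 : u + v ≡ u + w [MOD L] := h
  exact Nat.ModEq.eq_of_lt_of_lt (Nat.ModEq.add_left_cancel' u h1) hv hw

theorem col_inj {L u v w : ℕ} (hL : Odd L) (hu : u ≤ L) (hv : v ≤ L) (hw : w ≤ L)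
    (huv : u ≠ v) (huw : u ≠ w) (h : col L u v = col L u w) : v = w := by
  unfold col at h
  by_cases h1 : u = L
  · rw [if_pos h1, if_pos h1] at h
    exact two_inj hL (by omega) (by omega) h
  · rw [if_neg h1, if_neg h1] at h
    by_cases h2 : v = L
    · by_cases h3 : w = L
      · rw [h2, h3]
      · rw [if_pos h2, if_neg h3, two_mul] at h
        exact absurd (add_inj' (by omega) (by omega) h) huw
    · by_cases h3 : w = L
      · rw [if_neg h2, if_pos h3, two_mul] at h
        exact absurd (add_inj' (by omega) (by omega) h).symm huv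
      · rw [if_neg h2, if_neg h3] at h
        exact add_inj' (by omega) (by omega) h

theorem top_even {n r : ℕ} {b : ℕ → ℕ} (hn : Even n) (h0 : 0 < n)
    (h : n - 1 ≤ ∑ i ∈ range r, b i) : Colourable (⊤ : SimpleGraph (Fin n)) r b := by
  have hL : Odd (n - 1) := Nat.Even.sub_odd (by omega) hn odd_one
  refine colourable_of_proper (fun u v => col (n - 1) u v) (fun u v => col_comm _ _ _) ?_ ?_
  · intro u v _
    refine lt_of_lt_of_le ?_ h
    have h1 : 0 < n - 1 := hL.pos
    simp only [col]
    split_ifs <;> exact Nat.mod_lt _ h1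
  · intro u v w huv huw hvw hc
    apply hvw
    apply Fin.ext
    exact col_inj hL (by omega) (by omega) (by omega) (fun h => huv (Fin.ext h))
      (fun h => huw (Fin.ext h)) hc

theorem bot_colourable {n r : ℕ} {b : ℕ → ℕ} {G : SimpleGraph (Fin n)}
    (h : ∀ u v, ¬ G.Adj u v) : Colourable G r b := by
  refine ⟨fun _ _ => 0, fun _ _ => rfl, fun u v huv => absurd huv (h u v), fun u i _ => ?_⟩
  have : {v | G.Adj u v ∧ (0 : ℕ) = i} = ∅ := by
    ext v
    simp [h u v]
  rw [this, Set.ncard_empty]
  exact Nat.zero_le _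

section key

variable {n r : ℕ} {b : ℕ → ℕ} {P : SimpleGraph (Fin n) → Prop}

theorem key (hb : ∃ i < r, Odd (b i))
    (hlow : ∀ G, HighDegree G r b ∨ Overfull G r b → P G)
    (hup : ∀ G, P G → ¬ Colourable G r b) {d : ℕ}
    (G : SimpleGraph (Fin n)) (U : Finset (Fin n)) (hU : Odd U.card)
    (h1 : ∀ u ∈ U, (G.neighborSet u).ncard = d) (h2 : ∀ u v, G.Adj u v → u ∈ U) :
    P G ↔ ∑ i ∈ range r, b i ≤ d := by
  obtain ⟨i₀, hi₀, hodd⟩ := hb
  have hB : 1 ≤ ∑ i ∈ range r, b i := by
    have h3 := single_le_sum (f := b) (s := range r) (fun i _ => Nat.zero_le _)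
      (mem_range.2 hi₀)
    have h4 := hodd.pos
    omega
  have hout : ∀ u, u ∉ U → (G.neighborSet u).ncard = 0 := by
    intro u hu
    have : G.neighborSet u = ∅ := by
      ext v
      simp only [SimpleGraph.mem_neighborSet, Set.mem_empty_iff_false, iff_false]
      exact fun h => hu (h2 u v h)
    rw [this, Set.ncard_empty]
  constructor
  · intro hP
    by_contra hcon
    apply hup G hP
    refine colourable_of_deg (d := d) (fun v => ?_) (by omega)
    by_cases hv : v ∈ U
    · exact (h1 v hv).le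
    · rw [hout v hv]
      exact Nat.zero_le _
  · intro hrd
    apply hlow
    rcases Nat.lt_or_ge (∑ i ∈ range r, b i) d with h | h
    · left
      obtain ⟨u, hu⟩ := Finset.card_pos.1 hU.pos
      exact ⟨u, by rw [h1 u hu]; exact h⟩
    · right
      refine ⟨U, ?_⟩
      have e1 : ∑ u ∈ U, {v | v ∈ U ∧ G.Adj u v}.ncard = ∑ i ∈ range r, b i * U.card := by
        rw [Finset.sum_const_nat (m := ∑ i ∈ range r, b i), mul_comm, sum_mul]
        intro u hu
        have : {v | v ∈ U ∧ G.Adj u v} = G.neighborSet u := by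
          ext v
          exact ⟨fun h => h.2, fun h => ⟨h2 v u h.symm, h⟩⟩
        rw [this, h1 u hu]
        omega
      rw [e1, mul_sum]
      refine sum_lt_sum (fun i _ => by omega) ⟨i₀, mem_range.2 hi₀, ?_⟩
      obtain ⟨x, hx⟩ : Odd (b i₀ * U.card) := hodd.mul hU
      omega

theorem key_even (hb : ∀ i < r, Even (b i)) (h0 : 0 < n)
    (hlow : ∀ G, HighDegree G r b ∨ Overfull G r b → P G)
    (hup : ∀ G, P G → ¬ Colourable G r b) {d : ℕ}
    (G : SimpleGraph (Fin n)) (h1 : ∀ u, (G.neighborSet u).ncard = d) :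
    P G ↔ ∑ i ∈ range r, b i < d := by
  constructor
  · intro hP
    by_contra hcon
    apply hup G hP
    rcases Nat.lt_or_ge d (∑ i ∈ range r, b i) with h | h
    · exact colourable_of_deg (fun v => (h1 v).le) h
    · exact colourable_petersen hb fun v => by
        rw [h1]
        omega
  · intro h
    exact hlow _ (Or.inl ⟨⟨0, h0⟩, by rw [h1]; exact h⟩)

end key

theorem high_not {n r : ℕ} {b : ℕ → ℕ} {G : SimpleGraph (Fin n)} (h : HighDegree G r b) :
    ¬ Colourable G r b := by
  classical
  rintro ⟨c, h1, h2, h3⟩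
  obtain ⟨v, hv⟩ := h
  apply absurd hv
  rw [not_lt]
  have e : G.neighborSet v = ↑(univ.filter fun w => G.Adj v w) := by
    ext w
    simp
  rw [e, Set.ncard_coe_finset, card_eq_sum_card_fiberwise (f := fun w => c v w) (t := range r)]
  · refine sum_le_sum fun i hi => ?_
    refine le_trans (le_of_eq ?_) (h3 v i (mem_range.1 hi))
    rw [← Set.ncard_coe_finset]
    congr 1
    ext w
    simp
  · intro w hw
    simp only [coe_filter, mem_univ, true_and, Set.mem_ofPred_eq] at hw
    simpa using h2 v w hw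

/-- The edges of the colour `i` inside of `U`. -/
def sub {n : ℕ} (G : SimpleGraph (Fin n)) (c : Fin n → Fin n → ℕ) (hc : ∀ u v, c u v = c v u)
    (U : Finset (Fin n)) (i : ℕ) : SimpleGraph (Fin n) where
  Adj u v := G.Adj u v ∧ c u v = i ∧ u ∈ U ∧ v ∈ U
  symm := ⟨fun u v h => ⟨h.1.symm, by rw [← hc]; exact h.2.1, h.2.2.2, h.2.2.1⟩⟩
  loopless := ⟨fun _ h => G.loopless.irrefl _ h.1⟩

theorem over_not {n r : ℕ} {b : ℕ → ℕ} {G : SimpleGraph (Fin n)} (h : Overfull G r b) :
    ¬ Colourable G r b := by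
  classical
  rintro ⟨c, h1, h2, h3⟩
  obtain ⟨U, hU⟩ := h
  apply absurd hU
  rw [not_lt]
  have e1 : ∀ u ∈ U, {v | v ∈ U ∧ G.Adj u v}.ncard =
      ∑ i ∈ range r, (univ.filter fun v => (sub G c h1 U i).Adj u v).card := by
    intro u hu
    have e : {v | v ∈ U ∧ G.Adj u v} = ↑(univ.filter fun v => v ∈ U ∧ G.Adj u v) := by
      ext w
      simp
    rw [e, Set.ncard_coe_finset, card_eq_sum_card_fiberwise (f := fun w => c u w) (t := range r)]
    · refine sum_congr rfl fun i _ => ?_
      congr 1
      ext w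
      rw [mem_filter, mem_filter, mem_filter]
      exact ⟨fun h => ⟨mem_univ _, h.1.2.2, h.2, hu, h.1.2.1⟩,
        fun h => ⟨⟨mem_univ _, h.2.2.2.2, h.2.1⟩, h.2.2.1⟩⟩
    · intro w hw
      simp only [coe_filter, mem_univ, true_and, Set.mem_ofPred_eq] at hw
      simpa using h2 u w hw.2
  rw [sum_congr rfl e1, sum_comm, mul_sum]
  refine sum_le_sum fun i hi => ?_
  set H := sub G c h1 U i with hH
  have e2 : ∑ u ∈ U, (univ.filter fun v => H.Adj u v).card = ∑ u, H.degree u := by
    rw [← Finset.sum_subset (Finset.subset_univ U)]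
    · refine sum_congr rfl fun u _ => ?_
      rw [← SimpleGraph.card_neighborFinset_eq_degree]
      congr 1
      ext v
      simp
    · intro u _ hu
      rw [SimpleGraph.degree, card_eq_zero, eq_empty_iff_forall_notMem]
      intro v hv
      rw [SimpleGraph.mem_neighborFinset] at hv
      exact hu hv.2.2.1
  have e3 : ∑ u ∈ U, (univ.filter fun v => H.Adj u v).card ≤ b i * U.card := by
    rw [mul_comm, ← smul_eq_mul, ← sum_const]
    refine sum_le_sum fun u _ => le_trans ?_ (h3 u i (mem_range.1 hi))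
    rw [← Set.ncard_coe_finset]
    apply Set.ncard_le_ncard _ (Set.toFinite _)
    intro v hv
    simp only [coe_filter, mem_univ, true_and, Set.mem_ofPred_eq] at hv
    exact ⟨hv.1, hv.2.1⟩
  rw [e2, SimpleGraph.sum_degrees_eq_twice_card_edges] at *
  omega

theorem colourable_mono {n r : ℕ} {b : ℕ → ℕ} {G H : SimpleGraph (Fin n)} (hGH : G ≤ H)
    (h : Colourable H r b) : Colourable G r b := by
  obtain ⟨c, h1, h2, h3⟩ := h
  refine ⟨c, h1, fun u v huv => h2 u v (hGH huv), fun u i hi => le_trans ?_ (h3 u i hi)⟩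
  exact Set.ncard_le_ncard (fun v hv => ⟨hGH hv.1, hv.2⟩) (Set.toFinite _)

theorem colourable_map {n r : ℕ} {b : ℕ → ℕ} {G : SimpleGraph (Fin n)} (σ : Fin n ≃ Fin n)
    (h : Colourable (G.map σ.toEmbedding) r b) : Colourable G r b := by
  obtain ⟨c, h1, h2, h3⟩ := h
  have hadj : ∀ u v, G.Adj u v → (G.map σ.toEmbedding).Adj (σ u) (σ v) := fun u v huv =>
    (SimpleGraph.map_adj_apply (f := σ.toEmbedding)).2 huv
  refine ⟨fun u v => c (σ u) (σ v), fun u v => h1 _ _, fun u v huv => h2 _ _ (hadj u v huv),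
    fun u i hi => le_trans ?_ (h3 (σ u) i hi)⟩
  exact Set.ncard_le_ncard_of_injOn (fun v => σ v) (fun v hv => ⟨hadj u v hv.1, hv.2⟩)
    (fun v _ w _ hvw => σ.injective hvw) (Set.toFinite _)

theorem map_equiv_adj {n : ℕ} (σ : Fin n ≃ Fin n) (G : SimpleGraph (Fin n)) (u v : Fin n) :
    (G.map σ.toEmbedding).Adj u v ↔ G.Adj (σ.symm u) (σ.symm v) := by
  constructor
  · intro h
    rw [SimpleGraph.map_adj] at h
    obtain ⟨a, b, hab, rfl, rfl⟩ := h
    simpa using hab
  · intro h
    rw [SimpleGraph.map_adj]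
    exact ⟨_, _, h, by simp, by simp⟩

theorem map_compl {n : ℕ} (σ : Fin n ≃ Fin n) (G : SimpleGraph (Fin n)) :
    ((G.map σ.toEmbedding)ᶜ).map σ.symm.toEmbedding = Gᶜ := by
  ext u v
  rw [map_equiv_adj, SimpleGraph.compl_adj, SimpleGraph.compl_adj, map_equiv_adj]
  simp

theorem edge_compl {n : ℕ} {G H : SimpleGraph (Fin n)} {e : Sym2 (Fin n)}
    (h : e ∈ G.edgeSet ↔ e ∈ H.edgeSet) : e ∈ Gᶜ.edgeSet ↔ e ∈ Hᶜ.edgeSet := by
  induction e with
  | _ u v =>
    simp only [SimpleGraph.mem_edgeSet, SimpleGraph.compl_adj] at h ⊢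
    rw [h]

theorem iter_eq {n : ℕ} {s : Finset (Sym2 (Fin n)) → SimpleGraph (Fin n) → Sym2 (Fin n)}
    (hs : ∀ (Q : Finset (Sym2 (Fin n))) (G H : SimpleGraph (Fin n)),
        (∀ e ∈ Q, (e ∈ G.edgeSet ↔ e ∈ H.edgeSet)) → s Q G = s Q H) (G H : SimpleGraph (Fin n)) :
    ∀ k : ℕ, (∀ e ∈ (fun Q : Finset (Sym2 (Fin n)) => insert (s Q G) Q)^[k]
        (∅ : Finset (Sym2 (Fin n))), (e ∈ G.edgeSet ↔ e ∈ H.edgeSet)) →
      (fun Q : Finset (Sym2 (Fin n)) => insert (s Q H) Q)^[k] (∅ : Finset (Sym2 (Fin n))) =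
      (fun Q : Finset (Sym2 (Fin n)) => insert (s Q G) Q)^[k] (∅ : Finset (Sym2 (Fin n))) := by
  intro k
  induction k with
  | zero => exact fun _ => rfl
  | succ k ih =>
    intro h
    rw [Function.iterate_succ_apply'] at h
    have h1 : ∀ e ∈ (fun Q : Finset (Sym2 (Fin n)) => insert (s Q G) Q)^[k]
        (∅ : Finset (Sym2 (Fin n))), (e ∈ G.edgeSet ↔ e ∈ H.edgeSet) := fun e he =>
      h e (mem_insert_of_mem he)
    rw [Function.iterate_succ_apply', Function.iterate_succ_apply', ih h1]
    rw [hs _ G H h1]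

theorem evasive_of_compl {n : ℕ} {P : SimpleGraph (Fin n) → Prop}
    (h : ConeDegrees.Evasive (fun G : SimpleGraph (Fin n) => ¬ P Gᶜ)) : Evasive P := by
  intro s hs
  obtain ⟨G, H, h1, h2, h3⟩ := h (fun Q G => s Q Gᶜ) (fun Q G H hGH =>
    hs Q _ _ fun e he => edge_compl (hGH e he))
  rw [not_not] at h3
  have h4 : ∀ e ∈ (fun Q : Finset (Sym2 (Fin n)) => insert (s Q Gᶜ) Q)^[n.choose 2 - 1]
      (∅ : Finset (Sym2 (Fin n))), (e ∈ Gᶜ.edgeSet ↔ e ∈ Hᶜ.edgeSet) := fun e he =>
    edge_compl (h1 e he)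
  refine ⟨Hᶜ, Gᶜ, ?_, h3, h2⟩
  rw [iter_eq hs Gᶜ Hᶜ _ h4]
  exact fun e he => (h4 e he).symm

section main

variable {n r : ℕ} {b : ℕ → ℕ} {P : SimpleGraph (Fin n) → Prop}

theorem evasive_even_caps (h0 : 0 < n) (hb : ∀ i < r, Even (b i))
    (hmono : ∀ G H : SimpleGraph (Fin n), G ≤ H → P G → P H)
    (hiso : ∀ (σ : Fin n ≃ Fin n) (G : SimpleGraph (Fin n)), P G → P (G.map σ.toEmbedding))
    (hex : ∃ G, P G) (hlow : ∀ G, HighDegree G r b ∨ Overfull G r b → P G)
    (hup : ∀ G, P G → ¬ Colourable G r b) : Evasive P := by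
  refine RegularDegrees.result n P hmono hiso hex
    ⟨⊥, fun h => hup _ h (bot_colourable (by simp))⟩ ?_
  intro d G H _ _ h1 h2
  rw [key_even hb h0 hlow hup G h1, key_even hb h0 hlow hup H h2]

theorem evasive_odd (hn : Odd n) (hb : ∃ i < r, Odd (b i))
    (hmono : ∀ G H : SimpleGraph (Fin n), G ≤ H → P G → P H)
    (hiso : ∀ (σ : Fin n ≃ Fin n) (G : SimpleGraph (Fin n)), P G → P (G.map σ.toEmbedding))
    (hex : ∃ G, P G) (hlow : ∀ G, HighDegree G r b ∨ Overfull G r b → P G)
    (hup : ∀ G, P G → ¬ Colourable G r b) : Evasive P := by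
  refine RegularDegrees.result n P hmono hiso hex
    ⟨⊥, fun h => hup _ h (bot_colourable (by simp))⟩ ?_
  intro d G H _ _ h1 h2
  have hU : Odd (univ : Finset (Fin n)).card := by rwa [card_univ, Fintype.card_fin]
  rw [key hb hlow hup G univ hU (fun u _ => h1 u) (fun u _ _ => mem_univ u),
    key hb hlow hup H univ hU (fun u _ => h2 u) (fun u _ _ => mem_univ u)]

end main

theorem cone_compl {m r d : ℕ} {b : ℕ → ℕ} {P : SimpleGraph (Fin (m + 1)) → Prop} (hm : Odd m)
    (hb : ∃ i < r, Odd (b i)) (hlow : ∀ G, HighDegree G r b ∨ Overfull G r b → P G)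
    (hup : ∀ G, P G → ¬ Colourable G r b) (K : SimpleGraph (Fin m))
    (hK : ConeDegrees.RegularOfDegree K d) :
    P (ConeDegrees.Cone K)ᶜ ↔ ∑ i ∈ range r, b i ≤ m - 1 - d := by
  refine key hb hlow hup _ (univ.erase (Fin.last m)) ?_ ?_ ?_
  · rw [card_erase_of_mem (mem_univ _), card_univ, Fintype.card_fin, Nat.add_sub_cancel]
    exact hm
  · intro u hu
    obtain ⟨x, rfl⟩ : ∃ x : Fin m, u = x.castSucc := by
      rcases Fin.eq_castSucc_or_eq_last u with ⟨y, rfl⟩ | h
      · exact ⟨y, rfl⟩
      · exact absurd h (mem_erase.1 hu).1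
    rw [SimpleGraph.neighborSet_compl, Set.ncard_sdiff_singleton_of_mem, Set.ncard_compl,
      ConeDegrees.cone_deg K hK x, Nat.card_eq_fintype_card, Fintype.card_fin]
    · omega
    · intro h
      exact (ConeDegrees.Cone K).loopless.irrefl _ h
  · intro u v huv
    rw [mem_erase]
    refine ⟨fun h => ?_, mem_univ _⟩
    subst h
    rw [SimpleGraph.compl_adj] at huv
    refine huv.2 ⟨huv.1, fun x y hx _ => ?_⟩
    exact absurd hx.symm (Fin.castSucc_lt_last x).ne

theorem evasive_even {m r : ℕ} {b : ℕ → ℕ} {P : SimpleGraph (Fin (m + 1)) → Prop} (hm : Odd m)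
    (hb : ∃ i < r, Odd (b i))
    (hmono : ∀ G H : SimpleGraph (Fin (m + 1)), G ≤ H → P G → P H)
    (hiso : ∀ (σ : Fin (m + 1) ≃ Fin (m + 1)) (G : SimpleGraph (Fin (m + 1))),
      P G → P (G.map σ.toEmbedding))
    (hex : ∃ G, P G) (hlow : ∀ G, HighDegree G r b ∨ Overfull G r b → P G)
    (hup : ∀ G, P G → ¬ Colourable G r b) : Evasive P := by
  have hrb : ∑ i ∈ range r, b i < m := by
    by_contra hcon
    obtain ⟨G, hG⟩ := hex
    exact hup _ (hmono G ⊤ le_top hG) (top_even (hm.add_odd odd_one) (Nat.succ_pos _) (by omega))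
  have hbot : ¬ P ⊥ := fun h => hup _ h (bot_colourable (by simp))
  apply evasive_of_compl
  refine ConeDegrees.result.1 m _ ?_ ?_ ?_ ?_ ?_ ?_
  · exact fun G H hGH hG hH => hG (hmono _ _ (compl_le_compl hGH) hH)
  · intro σ G hG hP
    apply hG
    have := hiso σ.symm _ hP
    rwa [map_compl] at this
  · rintro G ⟨v, hv⟩
    rw [not_not]
    refine hlow _ (Or.inl ⟨v, ?_⟩)
    have : Gᶜ.neighborSet v = {v}ᶜ := by
      ext w
      simp only [SimpleGraph.mem_neighborSet, SimpleGraph.compl_adj, Set.mem_compl_iff,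
        Set.mem_singleton_iff]
      exact ⟨fun h => h.1.symm, fun h => ⟨fun h' => h h'.symm, hv w⟩⟩
    rw [this, Set.ncard_compl, Set.ncard_singleton, Nat.card_eq_fintype_card, Fintype.card_fin]
    omega
  · exact ⟨⊤, by rwa [compl_top]⟩
  · rw [not_not, cone_compl hm hb hlow hup ⊥ (ConeDegrees.regular_bot m)]
    omega
  · intro d K L _ _ hK hL
    rw [cone_compl hm hb hlow hup K hK, cone_compl hm hb hlow hup L hL]

/-- **Edge colouring properties are evasive for every number of vertices.** Let `n ≥ 2`, and let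
`r` and `b 0, …, b (r - 1)` be arbitrary.
(1) Every non-empty monotone isomorphism-invariant property of graphs on `n` vertices is evasive
that contains all graphs with a vertex of degree greater than `∑ b i` and all graphs with a set `U` of
vertices spanning more than `∑ ⌊b i |U| / 2⌋` edges, and that contains no graph which is the union of
`r` graphs of maximum degrees at most `b 0, …, b (r - 1)`.
(2) In particular the property of not being the union of `r` graphs of maximum degrees at most
`b 0, …, b (r - 1)` is evasive if there is such a graph.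
(3) So `the chromatic index is greater than r` is evasive, if `r < n - 1`, or if `n` is odd
and `r = n - 1`. -/
theorem result (n : ℕ) (hn : 2 ≤ n) (r : ℕ) :
    (∀ b : ℕ → ℕ,
      (∀ P : SimpleGraph (Fin n) → Prop,
        (∀ G H : SimpleGraph (Fin n), G ≤ H → P G → P H) →
        (∀ (σ : Fin n ≃ Fin n) (G : SimpleGraph (Fin n)), P G → P (G.map σ.toEmbedding)) →
        (∃ G, P G) →
        (∀ G, HighDegree G r b ∨ Overfull G r b → P G) →
        (∀ G, P G → ¬ Colourable G r b) → Evasive P) ∧
      ((∃ G : SimpleGraph (Fin n), ¬ Colourable G r b) →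
        Evasive (fun G : SimpleGraph (Fin n) => ¬ Colourable G r b))) ∧
    (r < n - 1 ∨ Odd n ∧ r = n - 1 →
      Evasive (fun G : SimpleGraph (Fin n) => ¬ Colourable G r (fun _ => 1))) := by
  have main : ∀ (b : ℕ → ℕ) (P : SimpleGraph (Fin n) → Prop),
      (∀ G H : SimpleGraph (Fin n), G ≤ H → P G → P H) →
      (∀ (σ : Fin n ≃ Fin n) (G : SimpleGraph (Fin n)), P G → P (G.map σ.toEmbedding)) →
      (∃ G, P G) →
      (∀ G, HighDegree G r b ∨ Overfull G r b → P G) →
      (∀ G, P G → ¬ Colourable G r b) → Evasive P := by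
    intro b P h1 h2 h3 h4 h5
    by_cases hb : ∀ i < r, Even (b i)
    · exact evasive_even_caps (by omega) hb h1 h2 h3 h4 h5
    · have hb' : ∃ i < r, Odd (b i) := by
        simp only [not_forall, Nat.not_even_iff_odd] at hb
        obtain ⟨i, hi, h⟩ := hb
        exact ⟨i, hi, h⟩
      rcases Nat.even_or_odd n with h | h
      · obtain ⟨m, rfl⟩ : ∃ m, n = m + 1 := ⟨n - 1, by omega⟩
        have hm : Odd m := by
          rw [Nat.even_add_one, Nat.not_even_iff_odd] at h
          exact h
        exact evasive_even hm hb' h1 h2 h3 h4 h5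
      · exact evasive_odd h hb' h1 h2 h3 h4 h5
  have hlow : ∀ (b : ℕ → ℕ) (G : SimpleGraph (Fin n)), HighDegree G r b ∨ Overfull G r b →
      ¬ Colourable G r b := fun b G h => h.elim high_not over_not
  have htop : ∀ v : Fin n, ((⊤ : SimpleGraph (Fin n)).neighborSet v).ncard = n - 1 :=
    ConeDegrees.regular_top n
  have two : ∀ b : ℕ → ℕ, (∃ G : SimpleGraph (Fin n), ¬ Colourable G r b) →
      Evasive (fun G : SimpleGraph (Fin n) => ¬ Colourable G r b) := fun b hex =>
    main b _ (fun G H hGH h h' => h (colourable_mono hGH h'))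
      (fun σ G h h' => h (colourable_map σ h')) hex (hlow b) (fun G h => h)
  refine ⟨fun b => ⟨main b, two b⟩, fun hr => two _ ⟨⊤, ?_⟩⟩
  rcases hr with hr | ⟨hn', hr⟩
  · refine high_not ⟨⟨0, by omega⟩, ?_⟩
    rw [htop]
    simpa using hr
  · have hU : Odd (univ : Finset (Fin n)).card := by rwa [card_univ, Fintype.card_fin]
    rw [key (P := fun G : SimpleGraph (Fin n) => ¬ Colourable G r (fun _ => 1))
      ⟨0, by omega, odd_one⟩ (hlow _) (fun G h => h) ⊤
      univ hU (fun u _ => htop u) (fun u _ _ => mem_univ u)]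
    simp [hr]

end Pool.Agent.Results.MP_257582_lc.EdgeColourings
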