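import Pool.Agent.L0h36.XF.Pack
import Pool.Agent.L0h35.EvRank

/-!
# Exchange families, matroids and rigidity: evasive properties for every number of vertices
(MP_257582_lc)

Let `𝓑` be a nonempty family of nonempty subgraphs of a host graph `G₀` (for example `K_n`) such that
for every member `B` and every edge `e` of `G₀` outside of `B` the graph `B + e` contains a member
which does not contain `B` (an exchange family). Then every property `P` of the subgraphs of `G₀` which
holds for the members `B` of the family and fails for all graphs `B - b`, `b ∈ B`, is evasive: all edges of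
`G₀` have to be queried. Nothing is assumed about `P` on the other graphs: neither monotonicity nor
invariance under isomorphisms.

* Matroids: if `M` is a matroid without loops on the edges of `G₀`, then every property which holds for all
  independent sets with `k` elements and fails for those with `k - 1` elements is evasive, `1 ≤ k ≤ r(M)`;
  so are all thresholds of the rank, in particular the property of spanning.
* Rigidity: for every `n ≥ 2` and `d ≥ 1` the property of being (generically) rigid in `ℝ^d` is evasive for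
  graphs with `n` vertices. On every host graph `G₀` the thresholds of the rank in the generic rigidity
  matroid (the number of degrees of freedom) are evasive, and so is every property which holds for the
  independent subgraphs with `k` edges and fails for those with `k - 1` edges.
* Packing: the edge-disjoint unions of the members of an exchange family with the members of any set `𝓗`
  of graphs are an exchange family. So, if all graphs in `𝓗` have `m` edges, then it is an evasive property to
  contain some `H ∈ 𝓗` such that `G - E(H)` is connected (is rigid in `ℝ^d`, has rank at least `k` in a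
  matroid), for every number of vertices and every host graph which has the property. Examples: to contain a
  copy of a given graph (a Hamilton circuit, a perfect matching, a clique, ...) such that `G` is still connected
  without its edges. (For `k` edge-disjoint spanning trees and `n ≥ 2 k` see also the start file
  PackingCovering.)
* Flats: let `M` be a matroid without loops on the pairs of vertices, `1 ≤ k ≤ r(M)`, and `H` a nonempty
  set of flats of rank less than `k` (any flats if `k = r(M)`). Every property of graphs which holds for the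
  graphs of rank at least `k` which span a flat of `H`, and implies `k ≤ |E(G)|`, is evasive, and so is its
  dual.
* Partitions: the same for the properties which hold for the graphs with at most `c` components for which all
  classes of some partition in `S` induce connected subgraphs, and imply `n - c ≤ |E(G)|`; `S` is a nonempty
  set of partitions with more than `c` classes (any partitions if `c = 1`), `1 ≤ c < n`.
* Truncations and saturation numbers: let `P₀` be any monotone property. If all minimal graphs with `P₀` have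
  less than `k` edges, then all properties between `P₀ and k ≤ |E|` and `k ≤ |E|` are evasive, and so are their
  duals. If all maximal graphs without `P₀` have at least `k` edges, then all properties between `k ≤ |E|` and
  `P₀ or k ≤ |E|` are evasive.

Proof. The adversary answers no unless the edges which are not yet excluded would no longer contain a
member of the family. At the end one edge `e` is left, and the edges `Y` which were answered with yes are
contained in every member `B` inside `Y + e`. By the exchange property `B = Y` is impossible, so that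
`B = Y + e`. For rigidity the exchange property is proved with a placement of the vertices which
is independent for `B` and separates the end points of `e`. For the flats the members of the family are the
independent sets with `k` elements which span a flat of `H`; the partitions are the case of the cycle matroid.
Joint work of two members of the team (the last three items: files `L0h35/Ev*`).
-/

set_option autoImplicit false

namespace Pool.Agent.Results.MP_257582_lc.ExchangeFamilies

open SimpleGraph

/-- The property `P` of graphs on `n` vertices is evasive, in the form of the frozen statement of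
the problem: every adaptive strategy (a rule `σ` for choosing the next pair, depending only on the
answers to the queries made so far) needs all `n.choose 2` queries: there are two graphs that agree
on the first `n.choose 2 - 1` queried pairs, one with and one without `P`. -/
def Evasive {n : ℕ} (P : SimpleGraph (Fin n) → Prop) : Prop :=
  ∀ σ : Finset (Sym2 (Fin n)) → SimpleGraph (Fin n) → Sym2 (Fin n),
    (∀ (Q : Finset (Sym2 (Fin n))) (G H : SimpleGraph (Fin n)),
        (∀ e ∈ Q, (e ∈ G.edgeSet ↔ e ∈ H.edgeSet)) → σ Q G = σ Q H) →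
    ∃ G H : SimpleGraph (Fin n),
      (∀ e ∈ (fun Q : Finset (Sym2 (Fin n)) => insert (σ Q G) Q)^[n.choose 2 - 1]
            (∅ : Finset (Sym2 (Fin n))),
          (e ∈ G.edgeSet ↔ e ∈ H.edgeSet)) ∧ P G ∧ ¬ P H

/-- The property `P` of the spanning subgraphs of the host graph `G₀` is evasive: every adaptive
strategy needs all `|E(G₀)|` queries. -/
def EvasiveOn {V : Type} [DecidableEq V] (G₀ : SimpleGraph V) (P : SimpleGraph V → Prop) : Prop :=
  ∀ σ : Finset (Sym2 V) → SimpleGraph V → Sym2 V,
    (∀ (Q : Finset (Sym2 V)) (G H : SimpleGraph V),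
        (∀ e ∈ Q, (e ∈ G.edgeSet ↔ e ∈ H.edgeSet)) → σ Q G = σ Q H) →
    ∃ G H : SimpleGraph V, G ≤ G₀ ∧ H ≤ G₀ ∧
      (∀ e ∈ (fun Q : Finset (Sym2 V) => insert (σ Q G) Q)^[G₀.edgeSet.ncard - 1]
            (∅ : Finset (Sym2 V)),
          (e ∈ G.edgeSet ↔ e ∈ H.edgeSet)) ∧ P G ∧ ¬ P H

/-- `𝓑` is an exchange family of subgraphs of `G₀`: it is not empty, its members have at least one
edge, and for every member `B` and every edge `e` of `G₀` outside of `B` the graph `B + e` contains a
member which does not contain `B`. -/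
structure Exchange {V : Type} (G₀ : SimpleGraph V) (𝓑 : Set (SimpleGraph V)) : Prop where
  nonempty : 𝓑.Nonempty
  le : ∀ B ∈ 𝓑, B ≤ G₀
  ne_bot : ∀ B ∈ 𝓑, B ≠ ⊥
  exchange : ∀ B ∈ 𝓑, ∀ e ∈ G₀.edgeSet, e ∉ B.edgeSet →
    ∃ B' ∈ 𝓑, B'.edgeSet ⊆ insert e B.edgeSet ∧ ¬ B ≤ B'

/-- The row of the rigidity matrix of the placement `p : V → ℝ^d` which belongs to the pair `e = uv`:
it is `p u - p v` at `u`, `p v - p u` at `v`, and zero at the other vertices. -/
noncomputable def row {V : Type} [DecidableEq V] {d : ℕ} (p : V → Fin d → ℝ) :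
    Sym2 V → (V → Fin d → ℝ) :=
  Sym2.lift ⟨fun u v => Pi.single u (p u - p v) + Pi.single v (p v - p u), fun _ _ => add_comm _ _⟩

/-- The rank of the rigidity matrix of the framework `(G, p)`. -/
noncomputable def rank {V : Type} [DecidableEq V] {d : ℕ} (p : V → Fin d → ℝ) (G : SimpleGraph V) : ℕ :=
  Module.finrank ℝ (Submodule.span ℝ (row p '' G.edgeSet))

/-- `G` is rigid in `ℝ^d`: for some placement the rank of its rigidity matrix is the largest rank which
occurs for the complete graph and any placement (generic infinitesimal rigidity). -/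
def Rigid {V : Type} [DecidableEq V] (d : ℕ) (G : SimpleGraph V) : Prop :=
  ∃ p : V → Fin d → ℝ, ∀ q : V → Fin d → ℝ, rank q (⊤ : SimpleGraph V) ≤ rank p G

/-- `G` is independent in `ℝ^d`: for some placement the rows of its rigidity matrix are linearly
independent. -/
def IndependentIn {V : Type} [DecidableEq V] (d : ℕ) (G : SimpleGraph V) : Prop :=
  ∃ p : V → Fin d → ℝ, LinearIndepOn ℝ (row p) G.edgeSet

theorem ncard_top (n : ℕ) : (⊤ : SimpleGraph (Fin n)).edgeSet.ncard = n.choose 2 := by
  classical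
  rw [← coe_edgeFinset, Set.ncard_coe_finset, card_edgeFinset_top_eq_card_choose_two,
    Fintype.card_fin]

theorem evasive_of_top {n : ℕ} {P : SimpleGraph (Fin n) → Prop}
    (h : EvasiveOn (⊤ : SimpleGraph (Fin n)) P) : Evasive P := by
  intro σ hσ
  obtain ⟨G, H, -, -, h1, h2, h3⟩ := h σ hσ
  rw [ncard_top] at h1
  exact ⟨G, H, h1, h2, h3⟩

theorem ex' {V : Type} {G₀ : SimpleGraph V} {𝓑 : Set (SimpleGraph V)} (h : Exchange G₀ 𝓑) :
    Pool.Agent.L0h36.XF.Exchange G₀ 𝓑 := ⟨h.nonempty, h.le, h.ne_bot, h.exchange⟩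

theorem ex'' {V : Type} {G₀ : SimpleGraph V} {𝓑 : Set (SimpleGraph V)}
    (h : Pool.Agent.L0h36.XF.Exchange G₀ 𝓑) : Exchange G₀ 𝓑 := ⟨h.nonempty, h.le, h.ne_bot, h.exchange⟩

/-- the corollary for graphs on `n` vertices -/
theorem on_vertices (n : ℕ) (hn : 2 ≤ n) (𝓗 : Set (SimpleGraph (Fin n))) (m : ℕ)
    (hm : ∀ H ∈ 𝓗, H.edgeSet.ncard = m) :
    ((∃ H ∈ 𝓗, (⊤ \ H).Connected) → Evasive (fun G => ∃ H ∈ 𝓗, H ≤ G ∧ (G \ H).Connected)) ∧
      ∀ d : ℕ, 1 ≤ d → (∃ H ∈ 𝓗, Rigid d (⊤ \ H)) →
        Evasive (fun G => ∃ H ∈ 𝓗, H ≤ G ∧ Rigid d (G \ H)) := by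
  have hnt : Nontrivial (Fin n) := by
    obtain ⟨n, rfl⟩ : ∃ k, n = k + 2 := ⟨n - 2, by omega⟩
    infer_instance
  constructor
  · rintro ⟨H, hH, hc⟩
    refine evasive_of_top (Pool.Agent.L0h36.XF.conn_pack ⊤ 𝓗 m hm ⟨H, hH, le_top, hc⟩ _
      (fun G _ h => h) ?_)
    rintro G - ⟨H', hH', hle, hc'⟩
    have h1 := hc'.card_vert_le_card_edgeSet_add_one
    have h2 : Nat.card (G \ H').edgeSet = (G \ H').edgeSet.ncard := rfl
    have h3 := Pool.Agent.L0h36.XF.ncard_sdiff_add hle
    have h4 := hm H' hH'
    omega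
  · rintro d hd ⟨H, hH, p, hp⟩
    obtain ⟨q₀, hq₀⟩ := Pool.Agent.L0h36.XF.exists_max d (⊤ : SimpleGraph (Fin n))
    have hne : (⊤ : SimpleGraph (Fin n)) ≠ ⊥ := top_ne_bot
    obtain ⟨q₁, hq₁⟩ := Pool.Agent.L0h36.XF.rank_pos hd (⊤ : SimpleGraph (Fin n)) hne
    refine evasive_of_top (Pool.Agent.L0h36.XF.rank_pack ⊤ d (rank q₀ ⊤) hd (hq₁.trans (hq₀ q₁)) 𝓗 m hm
      ⟨H, hH, le_top, p, hp q₀⟩ _ ?_ ?_)
    · rintro G - ⟨H', hH', hle, p', hp'⟩
      exact ⟨H', hH', hle, p', fun q => (hq₀ q).trans hp'⟩
    · rintro G - ⟨H', hH', hle, p', hp'⟩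
      have h1 := (hp' q₀).trans (Pool.Agent.L0h36.XF.rank_le p' (G \ H'))
      have h3 := Pool.Agent.L0h36.XF.ncard_sdiff_add hle
      have h4 := hm H' hH'
      omega

/-- **Exchange families, matroids, rigidity, packing, flats, partitions, numbers of edges.**
(1) Let `𝓑` be an exchange family of subgraphs of a finite graph `G₀`. Every property which holds for the
members `B` of `𝓑` and fails for the graphs `B - b`, `b ∈ B`, is evasive.
(2) Let `M` be a matroid without loops on the edges of `G₀` and `1 ≤ k ≤ r(M)`. Every property which holds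
for all independent sets of `k` edges and fails for all independent sets of `k - 1` edges is evasive.
(3) Let `d ≥ 1`, let `k ≥ 1` be at most the rank of `G₀` in the generic rigidity matroid. Every property
is evasive which holds for all subgraphs of `G₀` with `k` edges which are independent in `ℝ^d`, and fails
for all those with `k - 1` edges; in particular having rank at least `k`. For `n ≥ 2` being rigid in `ℝ^d` is
an evasive property of graphs with `n` vertices.
(4) The edge-disjoint unions of the members of an exchange family with the members of any set `𝓗` of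
subgraphs of `G₀` are an exchange family, if there are any.
(5) Let `𝓗` be a set of graphs with `m` edges each. If `G₀` (with `n ≥ 2` vertices) contains some `H ∈ 𝓗` such
that `G₀ - E(H)` is connected, then this is an evasive property of the subgraphs `G` of `G₀`, and so is every
property between it and having at least `n - 1 + m` edges. The same with rank at least `k ≥ 1` in the
generic rigidity matroid, or in a matroid without loops, instead of connected, and `k + m` edges.
(6) The same for graphs on `n` vertices with the definition of evasive in the frozen statement: to contain some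
`H ∈ 𝓗` such that `G - E(H)` is connected, or rigid in `ℝ^d`, is evasive if `K_n` has this property.
(7) Let `M` be a matroid without loops on the pairs of vertices, `1 ≤ k ≤ r(M)`, let `H` be a nonempty set of
flats of rank less than `k` (any flats if `k = r(M)`). Every property of graphs which holds for the graphs of
rank at least `k` which span a flat `F` of `H` (`F` is in the closure of `E(G) ∩ F`) and implies that there
are at least `k` edges is evasive, and so is its dual.
(8) Let `1 ≤ c < n` and let `S` be a nonempty set of partitions of the vertices with more than `c` classes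
(any partitions if `c = 1`). Every property which holds for the graphs with at most `c` components for
which all classes of some partition of `S` induce connected subgraphs, and implies that there are at least
`n - c` edges, is evasive, and so is its dual.
(9) Let `P₀` be a monotone property which holds for some graph, such that every graph with `P₀` contains one
with `P₀` and less than `k` edges, `k ≤ n.choose 2`. Every property between (`P₀` and at least `k` edges) and (at
least `k` edges) is evasive, and so is its dual.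
(10) Let `k ≥ 1` and let `P₀` be a monotone property which fails for some graph, such that every graph without
`P₀` is contained in one without `P₀` and with at least `k` edges. Every property between (at least `k` edges)
and (`P₀` or at least `k` edges) is evasive. -/
theorem result :
    (∀ (V : Type) [Finite V] [DecidableEq V] (G₀ : SimpleGraph V) (𝓑 : Set (SimpleGraph V)),
      Exchange G₀ 𝓑 → ∀ P : SimpleGraph V → Prop,
        (∀ B ∈ 𝓑, P B ∧ ∀ e ∈ B.edgeSet, ¬ P (B.deleteEdges {e})) → EvasiveOn G₀ P) ∧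
    (∀ (V : Type) [Finite V] [DecidableEq V] (G₀ : SimpleGraph V) (M : Matroid (Sym2 V)),
      M.E = G₀.edgeSet → (∀ e ∈ G₀.edgeSet, M.Indep {e}) → ∀ k : ℕ, 1 ≤ k →
        (∃ I, M.Indep I ∧ I.ncard = k) → ∀ P : SimpleGraph V → Prop,
          (∀ B : SimpleGraph V, M.Indep B.edgeSet → B.edgeSet.ncard = k → P B) →
          (∀ B : SimpleGraph V, M.Indep B.edgeSet → B.edgeSet.ncard + 1 = k → ¬ P B) →
          EvasiveOn G₀ P) ∧
    ((∀ (V : Type) [Finite V] [DecidableEq V] (G₀ : SimpleGraph V) (d k : ℕ), 1 ≤ d → 1 ≤ k →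
        (∃ q : V → Fin d → ℝ, k ≤ rank q G₀) →
        (∀ P : SimpleGraph V → Prop,
          (∀ B ≤ G₀, IndependentIn d B → B.edgeSet.ncard = k → P B) →
          (∀ B ≤ G₀, IndependentIn d B → B.edgeSet.ncard + 1 = k → ¬ P B) → EvasiveOn G₀ P) ∧
        EvasiveOn G₀ (fun G => ∃ p : V → Fin d → ℝ, k ≤ rank p G)) ∧
      ∀ n d : ℕ, 2 ≤ n → 1 ≤ d → Evasive (fun G : SimpleGraph (Fin n) => Rigid d G)) ∧
    (∀ (V : Type) (G₀ : SimpleGraph V) (𝓑 𝓗 : Set (SimpleGraph V)), Exchange G₀ 𝓑 → (∀ H ∈ 𝓗, H ≤ G₀) →
      (∃ B ∈ 𝓑, ∃ H ∈ 𝓗, Disjoint B.edgeSet H.edgeSet) →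
      Exchange G₀ {C | ∃ B ∈ 𝓑, ∃ H ∈ 𝓗, Disjoint B.edgeSet H.edgeSet ∧ C = B ⊔ H}) ∧
    (∀ (V : Type) [Finite V] [DecidableEq V] (G₀ : SimpleGraph V) (𝓗 : Set (SimpleGraph V)) (m : ℕ),
      (∀ H ∈ 𝓗, H.edgeSet.ncard = m) →
      (2 ≤ Nat.card V → (∃ H ∈ 𝓗, H ≤ G₀ ∧ (G₀ \ H).Connected) → ∀ P : SimpleGraph V → Prop,
        (∀ G ≤ G₀, (∃ H ∈ 𝓗, H ≤ G ∧ (G \ H).Connected) → P G) →
        (∀ G ≤ G₀, P G → Nat.card V - 1 + m ≤ G.edgeSet.ncard) → EvasiveOn G₀ P) ∧
      (∀ d k : ℕ, 1 ≤ d → 1 ≤ k → (∃ H ∈ 𝓗, H ≤ G₀ ∧ ∃ p : V → Fin d → ℝ, k ≤ rank p (G₀ \ H)) →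
        ∀ P : SimpleGraph V → Prop,
        (∀ G ≤ G₀, (∃ H ∈ 𝓗, H ≤ G ∧ ∃ p : V → Fin d → ℝ, k ≤ rank p (G \ H)) → P G) →
        (∀ G ≤ G₀, P G → k + m ≤ G.edgeSet.ncard) → EvasiveOn G₀ P) ∧
      (∀ M : Matroid (Sym2 V), M.E = G₀.edgeSet → (∀ e ∈ G₀.edgeSet, M.Indep {e}) → ∀ k : ℕ, 1 ≤ k →
        (∃ H ∈ 𝓗, H ≤ G₀ ∧ ∃ I ⊆ (G₀ \ H).edgeSet, M.Indep I ∧ I.ncard = k) →
        ∀ P : SimpleGraph V → Prop,
        (∀ G ≤ G₀, (∃ H ∈ 𝓗, H ≤ G ∧ ∃ I ⊆ (G \ H).edgeSet, M.Indep I ∧ I.ncard = k) → P G) →
        (∀ G ≤ G₀, P G → k + m ≤ G.edgeSet.ncard) → EvasiveOn G₀ P)) ∧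
    (∀ n : ℕ, 2 ≤ n → ∀ (𝓗 : Set (SimpleGraph (Fin n))) (m : ℕ), (∀ H ∈ 𝓗, H.edgeSet.ncard = m) →
      ((∃ H ∈ 𝓗, (⊤ \ H).Connected) → Evasive (fun G => ∃ H ∈ 𝓗, H ≤ G ∧ (G \ H).Connected)) ∧
      ∀ d : ℕ, 1 ≤ d → (∃ H ∈ 𝓗, Rigid d (⊤ \ H)) →
        Evasive (fun G => ∃ H ∈ 𝓗, H ≤ G ∧ Rigid d (G \ H))) ∧
    (∀ (n : ℕ) (M : Matroid (Sym2 (Fin n))), M.E = {e | ¬ e.IsDiag} → M.Loopless →
      ∀ k : ℕ, 1 ≤ k → (k : ℕ∞) ≤ M.eRank →
      ∀ H : Set (Set (Sym2 (Fin n))), H.Nonempty → (∀ F ∈ H, M.IsFlat F) →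
      (∀ F ∈ H, M.eRk F < k ∨ (k : ℕ∞) = M.eRank) →
      ∀ P : SimpleGraph (Fin n) → Prop,
      (∀ G, (k : ℕ∞) ≤ M.eRk G.edgeSet → (∃ F ∈ H, F ⊆ M.closure (G.edgeSet ∩ F)) → P G) →
      (∀ G, P G → k ≤ G.edgeSet.ncard) → Evasive P ∧ Evasive fun G => ¬ P Gᶜ) ∧
    (∀ n c : ℕ, 1 ≤ c → c < n → ∀ S : Set (Setoid (Fin n)), S.Nonempty →
      (∀ s ∈ S, c = 1 ∨ c < Nat.card (Quotient s)) →
      ∀ P : SimpleGraph (Fin n) → Prop,
      (∀ G : SimpleGraph (Fin n), Nat.card G.ConnectedComponent ≤ c →
        (∃ s ∈ S, ∀ x, (G.induce {y | s x y}).Connected) → P G) →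
      (∀ G, P G → n - c ≤ G.edgeSet.ncard) → Evasive P ∧ Evasive fun G => ¬ P Gᶜ) ∧
    (∀ (n k : ℕ) (P₀ : SimpleGraph (Fin n) → Prop),
      (∀ G H : SimpleGraph (Fin n), G ≤ H → P₀ G → P₀ H) → (∃ G, P₀ G) →
      (∀ G, P₀ G → ∃ H, H ≤ G ∧ P₀ H ∧ H.edgeSet.ncard < k) → k ≤ n.choose 2 →
      ∀ P : SimpleGraph (Fin n) → Prop,
      (∀ G, P₀ G → k ≤ G.edgeSet.ncard → P G) →
      (∀ G, P G → k ≤ G.edgeSet.ncard) → Evasive P ∧ Evasive fun G => ¬ P Gᶜ) ∧
    (∀ (n k : ℕ), 1 ≤ k → ∀ P₀ : SimpleGraph (Fin n) → Prop,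
      (∀ G H : SimpleGraph (Fin n), G ≤ H → P₀ G → P₀ H) → (∃ G, ¬ P₀ G) →
      (∀ G, ¬ P₀ G → ∃ H, G ≤ H ∧ ¬ P₀ H ∧ k ≤ H.edgeSet.ncard) →
      ∀ P : SimpleGraph (Fin n) → Prop,
      (∀ G : SimpleGraph (Fin n), k ≤ G.edgeSet.ncard → P G) →
      (∀ G, P G → P₀ G ∨ k ≤ G.edgeSet.ncard) → Evasive P) := by
  refine ⟨fun V _ _ G₀ 𝓑 h P hP => Pool.Agent.L0h36.XF.main G₀ 𝓑 (ex' h) P hP, ?_, ?_,
    fun V G₀ 𝓑 𝓗 h h1 h2 => ex'' (Pool.Agent.L0h36.XF.packing (ex' h) h1 h2), ?_, on_vertices,
    Pool.Agent.L0h35.EvRank.rank_flats, Pool.Agent.L0h35.EvRank.partitions,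
    Pool.Agent.L0h35.EvRank.and_edges, Pool.Agent.L0h35.EvRank.or_edges⟩
  · intro V _ _ G₀ M hE hl k hk hr P h1 h2
    refine Pool.Agent.L0h36.XF.main G₀ _ (Pool.Agent.L0h36.XF.matroid_exchange G₀ M hE hl k hk hr) P ?_
    rintro B ⟨hB, hBk⟩
    refine ⟨h1 B hB hBk, fun e he => h2 _ ?_ ?_⟩
    · rw [edgeSet_deleteEdges]
      exact hB.subset Set.sdiff_subset
    · rw [edgeSet_deleteEdges, Set.ncard_sdiff_singleton_of_mem he, hBk]
      omega
  · refine ⟨fun V _ _ G₀ d k hd hk hr => ⟨fun P h1 h2 => ?_, ?_⟩, fun n d hn hd => ?_⟩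
    · exact Pool.Agent.L0h36.XF.rigid_main G₀ d k hd hk hr P h1 h2
    · exact Pool.Agent.L0h36.XF.rankGe_evasive G₀ d k hd hk hr
    · refine evasive_of_top (Pool.Agent.L0h36.XF.rigid_evasive ⊤ d hd ?_ ?_)
      · rw [ne_bot_iff_exists_adj]
        refine ⟨⟨0, by omega⟩, ⟨1, by omega⟩, ?_⟩
        rw [top_adj]
        intro h
        rw [Fin.mk.injEq] at h
        omega
      · exact Pool.Agent.L0h36.XF.exists_max d ⊤
  · intro V _ _ G₀ 𝓗 m hm
    refine ⟨fun hV hex P h1 h2 => ?_, fun d k hd hk hex P h1 h2 => ?_,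
      fun M hE hl k hk hex P h1 h2 => ?_⟩
    · have : Nontrivial V := Finite.one_lt_card_iff_nontrivial.1 (by omega)
      exact Pool.Agent.L0h36.XF.conn_pack G₀ 𝓗 m hm hex P h1 h2
    · exact Pool.Agent.L0h36.XF.rank_pack G₀ d k hd hk 𝓗 m hm hex P h1 h2
    · exact Pool.Agent.L0h36.XF.matroid_pack G₀ M hE hl k hk 𝓗 m hm hex P h1 h2

end Pool.Agent.Results.MP_257582_lc.ExchangeFamilies
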